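import Pool.Agent.Helper62.LH.StA

/-!
# Project LH: pointwise Bochner identity for a symmetric connection
-/

set_option autoImplicit false

open Set Filter Topology
open scoped ContDiff

noncomputable section

namespace Pool.Agent.Helper40.LH

namespace PTW

variable {V : Type*} [NormedAddCommGroup V] [NormedSpace ℝ V]

/-- covariant derivative -/
def cov (Γ : V → V →L[ℝ] V →L[ℝ] V) (X : V → V) (y : V) : V →L[ℝ] V :=
  fderiv ℝ X y + (Γ y).flip (X y)

/-- weighted divergence -/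
def dv (T : (V →L[ℝ] V) →L[ℝ] ℝ) (Γ : V → V →L[ℝ] V →L[ℝ] V) (f : V → ℝ) (X : V → V) (y : V) : ℝ :=
  T (cov Γ X y) - fderiv ℝ f y (X y)

/-- derivative of the covariant derivative -/
def DA (Γ : V → V →L[ℝ] V →L[ℝ] V) (X : V → V) (x : V) : V →L[ℝ] V →L[ℝ] V :=
  fderiv ℝ (fderiv ℝ X) x +
    ((Γ x).flip.comp (fderiv ℝ X x) +
      (((ContinuousLinearMap.flipₗᵢ ℝ V V V).toContinuousLinearEquiv.toContinuousLinearMap).comp
        (fderiv ℝ Γ x)).flip (X x))

theorem DA_apply (Γ : V → V →L[ℝ] V →L[ℝ] V) (X : V → V) (x u v : V) :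
    DA Γ X x u v = fderiv ℝ (fderiv ℝ X) x u v + (Γ x v (fderiv ℝ X x u) +
      fderiv ℝ Γ x u v (X x)) := rfl

theorem hasA {Γ : V → V →L[ℝ] V →L[ℝ] V} (hΓ : ContDiff ℝ ∞ Γ) {X : V → V} (hX : ContDiff ℝ ∞ X)
    (x : V) : HasFDerivAt (cov Γ X) (DA Γ X x) x := by
  have hX1 : HasFDerivAt X (fderiv ℝ X x) x := (hX.differentiable (by simp) x).hasFDerivAt
  have hX2 : HasFDerivAt (fderiv ℝ X) (fderiv ℝ (fderiv ℝ X) x) x :=
    ((hX.fderiv_right (m := ∞) (by simp)).differentiable (by simp) x).hasFDerivAt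
  have hG1 : HasFDerivAt Γ (fderiv ℝ Γ x) x := (hΓ.differentiable (by simp) x).hasFDerivAt
  have hfl := ((ContinuousLinearMap.flipₗᵢ ℝ V V V).toContinuousLinearEquiv.toContinuousLinearMap).hasFDerivAt.comp x hG1
  exact hX2.add (hfl.clm_apply hX1)

theorem hasphi (T : (V →L[ℝ] V) →L[ℝ] ℝ) {Γ : V → V →L[ℝ] V →L[ℝ] V} (hΓ : ContDiff ℝ ∞ Γ)
    {X : V → V} (hX : ContDiff ℝ ∞ X)
    {f : V → ℝ} (hf : ContDiff ℝ ∞ f) (x : V) : HasFDerivAt (dv T Γ f X)
    (T.comp (DA Γ X x) - ((fderiv ℝ f x).comp (fderiv ℝ X x) +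
      (fderiv ℝ (fderiv ℝ f) x).flip (X x))) x := by
  have hX1 : HasFDerivAt X (fderiv ℝ X x) x := (hX.differentiable (by simp) x).hasFDerivAt
  have hf2 : HasFDerivAt (fderiv ℝ f) (fderiv ℝ (fderiv ℝ f) x) x :=
    ((hf.fderiv_right (m := ∞) (by simp)).differentiable (by simp) x).hasFDerivAt
  exact (T.hasFDerivAt.comp x (hasA hΓ hX x)).sub (hf2.clm_apply hX1)

theorem symX {X : V → V} (hX : ContDiff ℝ ∞ X) (x u v : V) :
    fderiv ℝ (fderiv ℝ X) x u v = fderiv ℝ (fderiv ℝ X) x v u := by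
  have hX2 : HasFDerivAt (fderiv ℝ X) (fderiv ℝ (fderiv ℝ X) x) x :=
    ((hX.fderiv_right (m := ∞) (by simp)).differentiable (by simp) x).hasFDerivAt
  exact second_derivative_symmetric (f := X) (f' := fderiv ℝ X)
      (fun y => (hX.differentiable (by simp) y).hasFDerivAt) hX2 u v

/-- curvature endomorphism `u ↦ R(u,v)w` -/
def RL (Γ : V → V →L[ℝ] V →L[ℝ] V) (x v w : V) : V →L[ℝ] V :=
  ((fderiv ℝ Γ x).flip v).flip w - ((fderiv ℝ Γ x v).flip w) + (Γ x).flip (Γ x v w) -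
    (Γ x v).comp ((Γ x).flip w)

theorem main (T : (V →L[ℝ] V) →L[ℝ] ℝ) (hcomm : ∀ L M : V →L[ℝ] V, T (L.comp M) = T (M.comp L))
    (hsm : ∀ (l : V →L[ℝ] ℝ) (v : V), T (l.smulRight v) = l v)
    {Γ : V → V →L[ℝ] V →L[ℝ] V} (hΓ : ContDiff ℝ ∞ Γ) (hsym : ∀ x u v, Γ x u v = Γ x v u)
    {X : V → V} (hX : ContDiff ℝ ∞ X) {f : V → ℝ} (hf : ContDiff ℝ ∞ f) (x : V) :
    dv T Γ f (fun y => dv T Γ f X y • X y - cov Γ X y (X y)) x =
      dv T Γ f X x ^ 2 - T ((cov Γ X x).comp (cov Γ X x)) - T (RL Γ x (X x) (X x)) -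
        (fderiv ℝ (fderiv ℝ f) x (X x) (X x) - fderiv ℝ f x (Γ x (X x) (X x))) := by
  have hX1 : HasFDerivAt X (fderiv ℝ X x) x := (hX.differentiable (by simp) x).hasFDerivAt
  have hZ := (hasA hΓ hX x).clm_apply hX1
  have hY := ((hasphi T hΓ hX hf x).smul hX1).sub hZ
  have hY' := hY.fderiv
  set v : V := X x with hv
  set D : V →L[ℝ] V := fderiv ℝ X x with hD
  set A : V →L[ℝ] V := cov Γ X x with hA
  set G : V →L[ℝ] V →L[ℝ] V := Γ x with hG
  set φ : ℝ := dv T Γ f X x with hφ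
  set DG := fderiv ℝ Γ x with hDG
  set D2 := fderiv ℝ (fderiv ℝ X) x with hD2
  set l : V →L[ℝ] ℝ := T.comp (DA Γ X x) - ((fderiv ℝ f x).comp D +
      (fderiv ℝ (fderiv ℝ f) x).flip v) with hl
  have hAe : A = D + G.flip v := rfl
  have hGs : ∀ u w, G u w = G w u := fun u w => hsym x u w
  have hfl : G.flip v = G v := by
    ext u
    exact hGs u v
  have e0 : cov Γ (fun y => dv T Γ f X y • X y - cov Γ X y (X y)) x =
      φ • A + l.smulRight v - (A.comp D + (DA Γ X x).flip v + G.flip (A v)) := by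
    have e : cov Γ (fun y => dv T Γ f X y • X y - cov Γ X y (X y)) x =
        fderiv ℝ (fun y => dv T Γ f X y • X y - cov Γ X y (X y)) x +
          G.flip (φ • v - A v) := rfl
    rw [e]
    have e' : fderiv ℝ (fun y => dv T Γ f X y • X y - cov Γ X y (X y)) x =
      φ • D + l.smulRight v - (A.comp D + (DA Γ X x).flip v) := hY'
    rw [e', hAe]
    ext u
    simp only [add_apply, sub_apply,
      smul_apply, ContinuousLinearMap.flip_apply, map_sub, map_smul,
      ContinuousLinearMap.comp_apply, map_add, smul_add]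
    abel
  have e1 : (DA Γ X x).flip v = D2 v + (G v).comp D + (DG.flip v).flip v := by
    ext u
    have h1 : D2 u v = D2 v u := symX hX x u v
    simp only [add_apply, ContinuousLinearMap.flip_apply, DA_apply,
      ContinuousLinearMap.comp_apply]
    rw [← hD2, ← hD, ← hDG, ← hG, h1]
    abel
  have e2 : DA Γ X x v = D2 v + G.flip (D v) + (DG v).flip v := by
    ext u
    simp only [add_apply, ContinuousLinearMap.flip_apply, DA_apply]
    rw [← hD2, ← hD, ← hDG, ← hG]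
    abel
  have e3 : RL Γ x v v = (DG.flip v).flip v - (DG v).flip v + G.flip (G v v) - (G v).comp (G.flip v) := rfl
  have e4 : A.comp A = A.comp D + A.comp (G v) := by
    have h : A = D + G v := by rw [hAe, hfl]
    calc A.comp A = A.comp (D + G v) := by rw [← h]
      _ = _ := ContinuousLinearMap.comp_add _ _ _
  have e5 : (G v).comp A = (G v).comp D + (G v).comp (G.flip v) := by
    rw [hAe]
    ext u
    simp only [add_apply, ContinuousLinearMap.comp_apply, map_add]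
  have e6 : A v = D v + G v v := by
    rw [hAe, add_apply, ContinuousLinearMap.flip_apply]
  have e7 : l v = T (DA Γ X x v) - (fderiv ℝ f x (D v) + fderiv ℝ (fderiv ℝ f) x v v) := rfl
  have e8 : φ = T A - fderiv ℝ f x v := rfl
  have e9 : dv T Γ f (fun y => dv T Γ f X y • X y - cov Γ X y (X y)) x =
      T (cov Γ (fun y => dv T Γ f X y • X y - cov Γ X y (X y)) x) -
        fderiv ℝ f x (φ • v - A v) := rfl
  rw [e9, e0, e3, e4, map_add T (A.comp D), hcomm A (G v), e5, e1]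
  have e10 : T (φ • A + l.smulRight v - (A.comp D + (D2 v + (G v).comp D + (DG.flip v).flip v) +
      G.flip (A v))) = φ * T A + l v - (T (A.comp D) + (T (D2 v) + T ((G v).comp D) +
        T ((DG.flip v).flip v)) + (T (G.flip (D v)) + T (G.flip (G v v)))) := by
    rw [e6]
    simp only [map_add, map_sub, map_smul, smul_eq_mul, hsm]
  rw [e10, e7, e2]
  simp only [map_add, map_sub, map_smul, smul_eq_mul, e6]
  rw [e8]
  ring

end PTW

open Helper62.LH

variable {n : ℕ}

/-- trace -/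
def tr (L : E n →L[ℝ] E n) : ℝ := ∑ i, (L (ee i)) i

theorem tr_add (L M : E n →L[ℝ] E n) : tr (L + M) = tr L + tr M := by
  simp [tr, Finset.sum_add_distrib]

theorem tr_smul (c : ℝ) (L : E n →L[ℝ] E n) : tr (c • L) = c * tr L := by
  simp [tr, Finset.mul_sum]

/-- trace as a continuous linear map -/
def trL (n : ℕ) : (E n →L[ℝ] E n) →L[ℝ] ℝ :=
  LinearMap.toContinuousLinearMap
    { toFun := tr, map_add' := tr_add, map_smul' := fun c L => tr_smul c L }

theorem trL_apply (L : E n →L[ℝ] E n) : trL n L = ∑ i, (L (ee i)) i := rfl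

theorem vec_sum (v : E n) : v = ∑ j, v j • (ee j : E n) := by
  ext k
  simp [ee, Pi.single_apply]

theorem tr_comp (L M : E n →L[ℝ] E n) : tr (L.comp M) = ∑ i, ∑ j, (M (ee i)) j * (L (ee j)) i := by
  unfold tr
  refine Finset.sum_congr rfl fun i _ => ?_
  have h : (L.comp M) (ee i) = ∑ j, (M (ee i)) j • L (ee j) := by
    rw [ContinuousLinearMap.comp_apply]
    conv_lhs => rw [vec_sum (M (ee i))]
    simp
  rw [h]
  simp

theorem tr_comm (L M : E n →L[ℝ] E n) : tr (L.comp M) = tr (M.comp L) := by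
  rw [tr_comp, tr_comp, Finset.sum_comm]
  refine Finset.sum_congr rfl fun i _ => Finset.sum_congr rfl fun j _ => ?_
  ring

theorem tr_smulRight (l : E n →L[ℝ] ℝ) (v : E n) : tr (l.smulRight v) = l v := by
  unfold tr
  conv_rhs => rw [vec_sum v]
  simp [mul_comm]

theorem dvf_eq (Γ : E n → Bm n) (f : E n → ℝ) (X : E n → E n) :
    dvf Γ f X = PTW.dv (trL n) Γ f X := rfl

theorem hPtw : StPtw := by
  intro n Γ hΓ hsym X f hX hf x
  have h := PTW.main (trL n) (fun L M => tr_comm L M) (fun l v => tr_smulRight l v) hΓ hsym hX hf x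
  exact h

end Pool.Agent.Helper40.LH
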